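import Pool.Agent.H6.NB.Targets

/-!
# NB module DCC: `Dec` depends on finitely many strings
-/

set_option autoImplicit false

namespace Pool.Agent.H37.NB.DCC

open Pool.Agent.H6.NB

theorem t_dcc (h1 : T_COD) : T_DCC := by
  intro s
  refine ⟨2 * s.length + 2 * qs s + 2 * ns s + 10, ?_⟩
  intro σ σ' h
  have hk : σ (key s) = σ' (key s) := by
    apply h
    unfold key
    simp only [List.length_cons]
    omega
  have hc : (fun i : Fin (ns s) => cpy σ s i) = fun i : Fin (ns s) => cpy σ' s i := by
    funext i v
    unfold cpy
    apply h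
    unfold blk
    simp only [List.length_cons, h1.2, List.length_ofFn]
    have hi := i.2
    have hb : v.1.toNat ≤ 1 := Bool.toNat_le _
    omega
  unfold Dec
  rw [hk, hc]

end Pool.Agent.H37.NB.DCC
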