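import Pool.Agent.H6.NB.Targets

/-!
# NB module INI: the empty seed
-/

set_option autoImplicit false

namespace Pool.Agent.H37.NB.INI

open Pool.Agent.H6.NB

theorem sum_hd (q : ℕ) (a : Fin q → Bool) :
    ∑ b, hd q a b = if a = (fun _ => false) then √(2 ^ q) else 0 := by
  have h0 : (0 : ℝ) < √(2 ^ q) := Real.sqrt_pos.2 (by positivity)
  have h1 : ∀ b, hd q (fun _ => false) b = 1 / √(2 ^ q) := by
    intro b
    simp [hd]
  have h2 := hd_orth q a (fun _ => false)
  rw [Finset.sum_congr rfl fun b _ => by rw [h1 b], ← Finset.sum_mul] at h2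
  have h3 : ∑ b, hd q a b = (∑ b, hd q a b) * (1 / √(2 ^ q)) * √(2 ^ q) := by
    field_simp
  rw [h3, h2]
  split_ifs <;> ring

theorem phi_zero (q : ℕ) : phi q (fun _ => false) ^ 2 = 1 / 2 ^ q := by
  have h0 : (0 : ℝ) < 2 ^ q := by positivity
  unfold phi
  have h1 : (∑ a : Fin q → Bool, ∑ b, sg false * hd q a b * sg false) = √(2 ^ q) := by
    have h2 : ∀ a : Fin q → Bool, ∑ b, sg false * hd q a b * sg false =
        if a = (fun _ => false) then √(2 ^ q) else 0 := by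
      intro a
      rw [← sum_hd]
      exact Finset.sum_congr rfl fun b _ => by simp [sg]
    rw [Finset.sum_congr rfl fun a _ => h2 a]
    simp
  rw [h1, div_pow, Real.sq_sqrt h0.le]
  field_simp

theorem pow_bound (q : ℕ) (hq : 100 ≤ q) : 3 * (q + 1) ^ 8 ≤ 2 ^ q := by
  induction q, hq using Nat.le_induction with
  | base => norm_num
  | succ q hq ih =>
    have h1 : 101 * (q + 1 + 1) ≤ 102 * (q + 1) := by omega
    have h2 : (101 * (q + 1 + 1)) ^ 8 ≤ (102 * (q + 1)) ^ 8 := Nat.pow_le_pow_left h1 8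
    rw [mul_pow, mul_pow] at h2
    have h3 : 101 ^ 8 * (q + 1 + 1) ^ 8 ≤ 101 ^ 8 * (2 * (q + 1) ^ 8) := by
      refine h2.trans ?_
      have : 102 ^ 8 ≤ 101 ^ 8 * 2 := by norm_num
      calc 102 ^ 8 * (q + 1) ^ 8 ≤ (101 ^ 8 * 2) * (q + 1) ^ 8 := Nat.mul_le_mul_right _ this
        _ = 101 ^ 8 * (2 * (q + 1) ^ 8) := by ring
    have h4 : (q + 1 + 1) ^ 8 ≤ 2 * (q + 1) ^ 8 := Nat.le_of_mul_le_mul_left h3 (by norm_num)
    rw [pow_succ 2 q]
    omega

theorem t_ini : T_INI := by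
  intro s
  refine ⟨fun _ => ?_, fun h => absurd h (by simp)⟩
  have h1 : ∀ i : Fin (ns s), (ns s : ℝ) * phi (qs s) (cpy (fun _ => false) s i) ^ 2 =
      (ns s : ℝ) * (1 / 2 ^ qs s) := by
    intro i
    have : cpy (fun _ => false) s i = fun _ => false := rfl
    rw [this, phi_zero]
  rw [Finset.sum_congr rfl fun i _ => h1 i, Finset.sum_const, Finset.card_univ, Fintype.card_fin,
    nsmul_eq_mul]
  have h2 := pow_bound (qs s) (by unfold qs; omega)
  have h3 : (3 : ℝ) * ((ns s : ℝ) * (ns s : ℝ)) ≤ 2 ^ qs s := by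
    have h4 : 3 * (ns s * ns s) ≤ 2 ^ qs s := by
      have h5 : ns s * ns s = (qs s + 1) ^ 8 := by
        unfold ns
        ring
      rw [h5]
      exact h2
    exact_mod_cast h4
  have h0 : (0 : ℝ) < 2 ^ qs s := by positivity
  rw [← mul_assoc, mul_one_div, div_le_div_iff₀ h0 (by norm_num)]
  linarith

end Pool.Agent.H37.NB.INI
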