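import Pool.Agent.H6.NB.Targets

/-!
# NB module PTH: accepting paths of a decision tree
-/

set_option autoImplicit false

namespace Pool.Agent.H37.NB.PTH

open Pool.Agent.H6.NB

theorem t_pth : T_PTH := by
  intro T m
  induction T with
  | leaf b =>
    intro _
    cases b
    · exact ⟨[], by simp, by simp, fun O => by simp [DT.eval]⟩
    · exact ⟨[[]], by simp [DT.depth], by simp, fun O => by simp [DT.eval]⟩
  | node w l r ihl ihr =>
    rintro ⟨hw, hl, hr⟩
    obtain ⟨Pl, l1, l2, l3⟩ := ihl hl
    obtain ⟨Pr, r1, r2, r3⟩ := ihr hr
    refine ⟨Pl.map (fun τ => (w, false) :: τ) ++ Pr.map (fun τ => (w, true) :: τ), ?_, ?_, ?_⟩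
    · rw [List.length_append, List.length_map, List.length_map]
      have e1 : 2 ^ l.depth ≤ 2 ^ max l.depth r.depth :=
        Nat.pow_le_pow_right (by norm_num) (le_max_left _ _)
      have e2 : 2 ^ r.depth ≤ 2 ^ max l.depth r.depth :=
        Nat.pow_le_pow_right (by norm_num) (le_max_right _ _)
      have e3 : 2 ^ (DT.node w l r).depth = 2 ^ max l.depth r.depth * 2 := by
        rw [DT.depth, pow_succ]
      rw [e3]
      omega
    · intro τ hτ
      rw [List.mem_append, List.mem_map, List.mem_map] at hτ
      rcases hτ with ⟨a, ha, rfl⟩ | ⟨a, ha, rfl⟩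
      · obtain ⟨h1, h2⟩ := l2 a ha
        refine ⟨?_, ?_⟩
        · rw [List.length_cons, DT.depth]
          have := le_max_left l.depth r.depth
          omega
        · intro c hc
          rcases List.mem_cons.1 hc with rfl | hc
          · exact hw
          · exact h2 c hc
      · obtain ⟨h1, h2⟩ := r2 a ha
        refine ⟨?_, ?_⟩
        · rw [List.length_cons, DT.depth]
          have := le_max_right l.depth r.depth
          omega
        · intro c hc
          rcases List.mem_cons.1 hc with rfl | hc
          · exact hw
          · exact h2 c hc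
    · intro O
      rw [DT.eval]
      have key : (∃ τ ∈ Pl.map (fun τ => (w, false) :: τ) ++ Pr.map (fun τ => (w, true) :: τ),
          ∀ c ∈ τ, O c.1 = c.2) ↔
          (O w = false ∧ ∃ τ ∈ Pl, ∀ c ∈ τ, O c.1 = c.2) ∨
          (O w = true ∧ ∃ τ ∈ Pr, ∀ c ∈ τ, O c.1 = c.2) := by
        constructor
        · rintro ⟨τ, hτ, h⟩
          rw [List.mem_append, List.mem_map, List.mem_map] at hτ
          rcases hτ with ⟨a, ha, rfl⟩ | ⟨a, ha, rfl⟩
          · exact Or.inl ⟨h (w, false) (List.mem_cons_self ..), a, ha,
              fun c hc => h c (List.mem_cons_of_mem _ hc)⟩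
          · exact Or.inr ⟨h (w, true) (List.mem_cons_self ..), a, ha,
              fun c hc => h c (List.mem_cons_of_mem _ hc)⟩
        · rintro (⟨h1, a, ha, h⟩ | ⟨h1, a, ha, h⟩)
          · refine ⟨(w, false) :: a, List.mem_append_left _ (List.mem_map_of_mem ha), ?_⟩
            intro c hc
            rcases List.mem_cons.1 hc with rfl | hc
            · exact h1
            · exact h c hc
          · refine ⟨(w, true) :: a, List.mem_append_right _ (List.mem_map_of_mem ha), ?_⟩
            intro c hc
            rcases List.mem_cons.1 hc with rfl | hc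
            · exact h1
            · exact h c hc
      rw [key]
      by_cases h : O w = true
      · rw [if_pos h, r3 O]
        simp [h]
      · rw [if_neg h, l3 O]
        simp only [Bool.not_eq_true] at h
        simp [h]

end Pool.Agent.H37.NB.PTH
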